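import Pool.Agent.H37.CNZ.Stmts
import Pool.Agent.H12.CNP.ELH

/-!
# Row ZGD of the board `cnz`: the group data of `E ⋊ (G / C_G(E))`
-/

set_option autoImplicit false

namespace Pool.CND

open Finset Matrix

/-- `E ⋊ Q` for a group `Q` of automorphisms of `E` -/
abbrev ZG2 {G : Type} [Group G] {E : Subgroup G} (Q : Subgroup (MulAut E)) : Type :=
  SemidirectProduct E Q Q.subtype

/-- additive maps from `F_p ^ n` to polynomials in characteristic `p` are given by the values on the basis -/
theorem zgd_lin (p n : ℕ) [Fact p.Prime] (k : Type) [Field k] [CharP k p]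
    (h : (Fin n → ZMod p) → Polynomial k) (hadd : ∀ a b, h (a + b) = h a + h b)
    (ℓ : Fin n → ZMod p) :
    ∑ i, Polynomial.C (fp k (ℓ i)) * h (Pi.single i 1) = h ℓ := by
  classical
  have h0 : h 0 = 0 := by
    have := hadd 0 0
    rw [add_zero] at this
    exact (left_eq_add.1 this)
  let f : (Fin n → ZMod p) →+ Polynomial k := { toFun := h, map_zero' := h0, map_add' := hadd }
  have hf : ∀ a, f a = h a := fun _ => rfl
  have h1 : ℓ = ∑ i, (ℓ i).val • (Pi.single i 1 : Fin n → ZMod p) := by
    funext j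
    rw [Finset.sum_apply]
    rw [Finset.sum_eq_single j]
    · simp
    · intro b _ hb
      simp [Pi.single_eq_of_ne (Ne.symm hb)]
    · intro hj; exact absurd (Finset.mem_univ j) hj
  conv_rhs => rw [h1, ← hf, map_sum]
  refine Finset.sum_congr rfl fun i _ => ?_
  rw [map_nsmul, hf, nsmul_eq_mul]
  congr 1
  have h2 : fp k (ℓ i) = (((ℓ i).val : ℕ) : k) := by
    conv_lhs => rw [← ZMod.natCast_zmod_val (ℓ i)]
    exact map_natCast (ZMod.castHom (dvd_refl p) k) _
  rw [h2, Polynomial.C_eq_natCast]

theorem zgd_thm : S_ZGD := by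
  intro p k G _ _ _ _ E ι hp hE hnorm hι hker
  classical
  have : Fact p.Prime := ⟨hp⟩
  have hEn : E.Normal := ⟨fun a ha g => hnorm g a ha⟩
  obtain ⟨n, ⟨φE⟩⟩ := ea_equiv p G E hp hE
  have hcomm : ∀ a b : E, a * b = b * a := fun a b => Subtype.ext (hE.2 a a.2 b b.2)
  obtain ⟨cj, hcj⟩ : ∃ cj : G →* MulAut E, ∀ g (a : E), ((cj g a : E) : G) = g * a * g⁻¹ :=
    ⟨MulAut.conjNormal, fun g a => rfl⟩
  have hι1 : ι 1 = 0 := by
    have := hι 1 1
    rw [mul_one] at this
    exact left_eq_add.1 this
  have hιcj : ∀ g h, cj g = cj h → ι g = ι h := by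
    intro g h hgh
    have h1 : ι (h⁻¹ * g) = 0 := by
      rw [hker]
      intro a ha
      have h2 : g * a * g⁻¹ = h * a * h⁻¹ := by
        rw [← hcj g ⟨a, ha⟩, ← hcj h ⟨a, ha⟩, hgh]
      calc h⁻¹ * g * a = h⁻¹ * (g * a * g⁻¹) * g := by group
        _ = h⁻¹ * (h * a * h⁻¹) * g := by rw [h2]
        _ = a * (h⁻¹ * g) := by group
    have h2 := hι h (h⁻¹ * g)
    rw [h1, add_zero, mul_inv_cancel_left] at h2
    exact h2
  have hcjι : ∀ g h, ι g = ι h → cj g = cj h := by
    intro g h hgh
    have h1 : ι (h⁻¹ * g) = 0 := by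
      rw [hι, hgh, ← hι, inv_mul_cancel, hι1]
    rw [hker] at h1
    ext a
    rw [hcj, hcj]
    have h2 := h1 a a.2
    calc g * a * g⁻¹ = h * (h⁻¹ * g * a) * g⁻¹ := by group
      _ = h * (a * (h⁻¹ * g)) * g⁻¹ := by rw [h2]
      _ = h * a * h⁻¹ := by group
  let Q : Subgroup (MulAut E) := cj.range
  have hq : ∀ q : Q, ∃ g, cj g = (q : MulAut E) := fun q => q.2
  choose s hs using hq
  let iq : Q → k := fun q => ι (s q)
  have hiq : ∀ (q : Q) (g : G), cj g = (q : MulAut E) → iq q = ι g := fun q g hg =>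
    hιcj _ _ ((hs q).trans hg.symm)
  have iq_mul : ∀ q q' : Q, iq (q * q') = iq q + iq q' := by
    intro q q'
    rw [hiq (q * q') (s q * s q') (by rw [map_mul, hs, hs]; rfl), hι]
  have iq_inj : ∀ q q' : Q, iq q = iq q' → q = q' := by
    intro q q' h
    apply Subtype.ext
    rw [← hs q, ← hs q']
    exact hcjι _ _ h
  have iq_one : iq 1 = 0 := by
    rw [hiq 1 1 (by rw [map_one]; rfl), hι1]
  -- the matrices
  let L : Q → ((Fin n → ZMod p) →+ (Fin n → ZMod p)) := fun q =>
    { toFun := fun v => Multiplicative.toAdd (φE ((q : MulAut E).symm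
        (φE.symm (Multiplicative.ofAdd v))))
      map_zero' := by simp
      map_add' := fun v w => by simp }
  let T : Q → Matrix (Fin n) (Fin n) (ZMod p) := fun q =>
    LinearMap.toMatrix' ((L q).toZModLinearMap p)
  have hT : ∀ q v, T q *ᵥ v =
      Multiplicative.toAdd (φE ((q : MulAut E).symm (φE.symm (Multiplicative.ofAdd v)))) := by
    intro q v
    change (LinearMap.toMatrix' ((L q).toZModLinearMap p)) *ᵥ v = _
    rw [LinearMap.toMatrix'_mulVec]
    rfl
  have hTa : ∀ q (a : E), T q *ᵥ Multiplicative.toAdd (φE a) =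
      Multiplicative.toAdd (φE ((q : MulAut E).symm a)) := by
    intro q a
    rw [hT, ofAdd_toAdd, MulEquiv.symm_apply_apply]
  have hTa' : ∀ q (a : E), T q *ᵥ Multiplicative.toAdd (φE ((q : MulAut E) a)) =
      Multiplicative.toAdd (φE a) := by
    intro q a
    rw [hTa, MulEquiv.symm_apply_apply]
  have hext : ∀ A B : Matrix (Fin n) (Fin n) (ZMod p),
      (∀ a : E, A *ᵥ Multiplicative.toAdd (φE a) = B *ᵥ Multiplicative.toAdd (φE a)) → A = B := by
    intro A B h
    refine Matrix.mulVec_injective (funext fun v => ?_)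
    have := h (φE.symm (Multiplicative.ofAdd v))
    rwa [MulEquiv.apply_symm_apply, toAdd_ofAdd] at this
  have hTmul : ∀ q q' : Q, T (q * q') = T q' * T q := by
    intro q q'
    apply hext
    intro a
    rw [← Matrix.mulVec_mulVec, hTa, hTa, hTa]
    rfl
  have hTone : T 1 = 1 := by
    apply hext
    intro b
    rw [hTa, Matrix.one_mulVec]
    rfl
  -- the group
  have fin2 : Finite (ZG2 Q) := Finite.of_equiv _ (SemidirectProduct.equivProd (φ := Q.subtype)).symm
  let M : Subgroup (ZG2 Q) := (SemidirectProduct.rightHom : ZG2 Q →* Q).ker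
  have hM : ∀ g : ZG2 Q, g ∈ M ↔ g.right = 1 := fun g => Iff.rfl
  let eM : M ≃* E :=
    { toFun := fun m => m.1.left
      invFun := fun e => ⟨SemidirectProduct.inl e, (hM _).2 rfl⟩
      left_inv := fun m => by
        apply Subtype.ext
        exact SemidirectProduct.ext rfl ((hM _).1 m.2).symm
      right_inv := fun e => rfl
      map_mul' := fun m m' => by
        show (m.1 * m'.1).left = m.1.left * m'.1.left
        rw [SemidirectProduct.mul_left, (hM _).1 m.2, map_one, MulAut.one_apply] }
  have hconj : ∀ (g a : ZG2 Q), a ∈ M → (g * a * g⁻¹) ∈ M ∧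
      (g * a * g⁻¹).left = (g.right : MulAut E) a.left := by
    intro g a ha
    rw [hM] at ha
    constructor
    · rw [hM, SemidirectProduct.mul_right, SemidirectProduct.mul_right, ha,
        SemidirectProduct.inv_right, mul_one, mul_inv_cancel]
    · have h3 : ∀ x : E, Q.subtype g.right (Q.subtype g.right⁻¹ x) = x := fun x => by
        rw [map_inv, MulAut.apply_inv_self]
      rw [SemidirectProduct.mul_left, SemidirectProduct.mul_left, SemidirectProduct.mul_right, ha,
        mul_one, SemidirectProduct.inv_left, h3]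
      rw [hcomm g.left, mul_assoc, mul_inv_cancel, mul_one]
      rfl
  have hXD : XD M n (eM.trans φE) (fun g => T g.right) (fun g => iq g.right) := by
    refine ⟨?_, ?_, ?_, ?_, ?_⟩
    · intro g a
      obtain ⟨h1, h2⟩ := hconj g a a.2
      refine ⟨⟨g * a * g⁻¹, h1⟩, rfl, ?_⟩
      show T g.right *ᵥ Multiplicative.toAdd (φE ((g * (a : ZG2 Q) * g⁻¹).left)) =
        Multiplicative.toAdd (φE (a : ZG2 Q).left)
      rw [h2, hTa']
    · intro g h
      show T (g * h).right = _
      rw [SemidirectProduct.mul_right, hTmul]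
    · intro a ha
      show T a.right = 1
      rw [(hM a).1 ha, hTone]
    · intro g h
      show iq (g * h).right = _
      rw [SemidirectProduct.mul_right, iq_mul]
    · intro g
      show iq g.right = 0 ↔ _
      rw [hM, ← iq_one]
      exact ⟨fun h => iq_inj _ _ h, fun h => by rw [h]⟩
  have hEA : EA p M := by
    constructor
    · intro a ha
      have h1 : eM (⟨a, ha⟩ ^ p) = 1 := by
        rw [map_pow]
        exact Subtype.ext (hE.1 _ (eM ⟨a, ha⟩).2)
      have h2 : (⟨a, ha⟩ : M) ^ p = 1 := eM.injective (by rw [h1, map_one])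
      exact congrArg Subtype.val h2
    · intro a ha b hb
      have h1 : eM (⟨a, ha⟩ * ⟨b, hb⟩) = eM (⟨b, hb⟩ * ⟨a, ha⟩) := by
        rw [map_mul, map_mul, hcomm]
      exact congrArg Subtype.val (eM.injective h1)
  have iq_pow : ∀ (q : Q) (m : ℕ), iq (q ^ m) = (m : k) * iq q := by
    intro q m
    induction m with
    | zero => rw [pow_zero, iq_one]; simp
    | succ m ih => rw [pow_succ, iq_mul, ih]; push_cast; ring
  have hpow : ∀ g : ZG2 Q, g ^ p ∈ M := by
    intro g
    show SemidirectProduct.rightHom (g ^ p) = 1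
    rw [map_pow]
    apply iq_inj
    rw [iq_pow, iq_one, CharP.cast_eq_zero, zero_mul]
  have hrange : Set.range (fun g : ZG2 Q => iq g.right) = Set.range ι := by
    ext c
    constructor
    · rintro ⟨g, rfl⟩
      exact ⟨s g.right, rfl⟩
    · rintro ⟨g, rfl⟩
      exact ⟨SemidirectProduct.inr ⟨cj g, g, rfl⟩, hiq _ g rfl⟩
  have hcard : Nat.card (ZG2 Q) = Nat.card (Set.range ι) * Nat.card M := by
    rw [SemidirectProduct.card, mul_comm, Nat.card_congr eM.toEquiv]
    congr 1
    have hr : Set.range iq = Set.range ι := by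
      ext c
      constructor
      · rintro ⟨q, rfl⟩
        exact ⟨s q, rfl⟩
      · rintro ⟨g, rfl⟩
        exact ⟨⟨cj g, g, rfl⟩, hiq _ g rfl⟩
    rw [← hr]
    exact Nat.card_congr (Equiv.ofInjective iq (fun q q' h => iq_inj q q' h))
  -- the homomorphisms
  let Λ : (Fin n → ZMod p) → (E →* Multiplicative (ZMod p)) := fun ℓ =>
    { toFun := fun e => Multiplicative.ofAdd (ℓ ⬝ᵥ Multiplicative.toAdd (φE e))
      map_one' := by simp
      map_mul' := fun a b => by
        rw [map_mul, toAdd_mul, dotProduct_add, ofAdd_add] }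
  have hΛ : ∀ ℓ e, Λ ℓ e = Multiplicative.ofAdd (ℓ ⬝ᵥ Multiplicative.toAdd (φE e)) :=
    fun _ _ => rfl
  have hΛadd : ∀ a b, Λ (a + b) = Λ a * Λ b := by
    intro a b
    ext e
    rw [MonoidHom.mul_apply, hΛ, hΛ, hΛ, add_dotProduct, ofAdd_add]
  have hΛbij : Function.Bijective Λ := by
    constructor
    · intro ℓ ℓ' h
      funext i
      have h1 := DFunLike.congr_fun h (φE.symm (Multiplicative.ofAdd (Pi.single i 1)))
      rw [hΛ, hΛ, MulEquiv.apply_symm_apply, toAdd_ofAdd, dotProduct_single, dotProduct_single,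
        mul_one, mul_one] at h1
      exact Multiplicative.ofAdd.injective h1
    · intro χ
      let f0 : (Fin n → ZMod p) →+ ZMod p :=
        { toFun := fun v => Multiplicative.toAdd (χ (φE.symm (Multiplicative.ofAdd v)))
          map_zero' := by simp
          map_add' := fun v w => by simp }
      let f := f0.toZModLinearMap p
      refine ⟨fun i => f (fun j => if i = j then 1 else 0), ?_⟩
      ext e
      rw [hΛ]
      have h1 := LinearMap.pi_apply_eq_sum_univ f (Multiplicative.toAdd (φE e))
      have h2 : f (Multiplicative.toAdd (φE e)) = Multiplicative.toAdd (χ e) := by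
        show Multiplicative.toAdd (χ (φE.symm (Multiplicative.ofAdd
          (Multiplicative.toAdd (φE e))))) = _
        rw [ofAdd_toAdd, MulEquiv.symm_apply_apply]
      rw [h2] at h1
      rw [← ofAdd_toAdd (χ e), h1]
      simp only [dotProduct, smul_eq_mul]
      rw [Finset.sum_congr rfl fun i _ => mul_comm (f fun j => if i = j then 1 else 0)
        (Multiplicative.toAdd (φE e) i)]
  refine ⟨ZG2 Q, inferInstance, fin2, M, n, eM.trans φE, fun g => T g.right, fun g => iq g.right,
    fun g => vp k (T g.right *ᵥ Multiplicative.toAdd (φE g.left)), Λ, fun g => (g.left : G),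
    hXD, hEA, fun g a ha => (hconj g a ha).1, hpow, hrange, hcard, hΛbij, hΛadd,
    fun g => g.left.2, fun e he => ⟨SemidirectProduct.inl ⟨e, he⟩, (hM _).2 rfl, rfl⟩,
    fun a ha h1 => SemidirectProduct.ext (Subtype.ext h1) ((hM a).1 ha), ?_, ?_⟩
  · intro g a b h
    have h1 : (a.right : MulAut E) = cj g := by
      rw [← hs a.right]
      exact hcjι _ _ h.symm
    show ((a * b).left : G) = (a.left : G) * (g * (b.left : G) * g⁻¹)
    rw [SemidirectProduct.mul_left, Subgroup.coe_mul]
    congr 1
    show (((a.right : MulAut E) b.left : E) : G) = _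
    rw [h1, hcj]
  · intro H hHadd hHeq
    have hHΛ : ∀ ℓ : Fin n → ZMod p,
        ∑ i, Polynomial.C (fp k (ℓ i)) * H (Λ (Pi.single i 1)) = H (Λ ℓ) := fun ℓ =>
      zgd_lin p n k (fun ℓ => H (Λ ℓ)) (fun a b => by rw [hΛadd, hHadd]) ℓ
    have fadd : ∀ a b : ZMod p, fp k (a + b) = fp k a + fp k b := fun a b => map_add _ a b
    have fmul : ∀ a b : ZMod p, fp k (a * b) = fp k a * fp k b := fun a b => map_mul _ a b
    have fsum : ∀ v : Fin n → ZMod p, fp k (∑ i, v i) = ∑ i, fp k (v i) := fun v => map_sum _ _ _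
    have fpp : ∀ a : ZMod p, fp k a ^ p = fp k a := fun a => by
      rw [show fp k a ^ p = fp k (a ^ p) from (map_pow (ZMod.castHom (dvd_refl p) k) a p).symm,
        ZMod.pow_card]
    have hmp : ∀ (A : Matrix (Fin n) (Fin n) (ZMod p)) (v : Fin n → ZMod p),
        mp k A *ᵥ vp k v = vp k (A *ᵥ v) := by
      intro A v
      funext i
      simp only [mp, vp, Matrix.mulVec, dotProduct, Matrix.map_apply]
      rw [fsum, map_sum]
      exact Finset.sum_congr rfl fun j _ => by rw [fmul, Polynomial.C_mul]
    have hvadd : ∀ v w : Fin n → ZMod p, vp k (v + w) = vp k v + vp k w := by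
      intro v w
      funext i
      simp only [vp, Pi.add_apply]
      rw [fadd, Polynomial.C_add]
    refine ⟨fun i => H (Λ (Pi.single i 1)), ⟨?_, ?_, ?_⟩, hHΛ⟩
    · intro a
      show vp k (T (a : ZG2 Q).right *ᵥ Multiplicative.toAdd (φE (a : ZG2 Q).left)) =
        vp k (Multiplicative.toAdd (φE (a : ZG2 Q).left))
      rw [(hM a).1 a.2, hTone, Matrix.one_mulVec]
    · intro g h
      have h1 : (fun i => (vp k (T h.right *ᵥ Multiplicative.toAdd (φE h.left)) i).comp
          (Polynomial.X + Polynomial.C (iq g.right))) =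
          vp k (T h.right *ᵥ Multiplicative.toAdd (φE h.left)) := by
        funext i
        simp only [vp, Polynomial.C_comp]
      show vp k (T (g * h).right *ᵥ Multiplicative.toAdd (φE (g * h).left)) =
        mp k (T h.right) *ᵥ vp k (T g.right *ᵥ Multiplicative.toAdd (φE g.left)) + fun i =>
          (vp k (T h.right *ᵥ Multiplicative.toAdd (φE h.left)) i).comp
          (Polynomial.X + Polynomial.C (iq g.right))
      rw [h1, hmp, ← hvadd, SemidirectProduct.mul_right, SemidirectProduct.mul_left, hTmul,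
        map_mul, toAdd_mul, ← Matrix.mulVec_mulVec, Matrix.mulVec_add, Matrix.mulVec_add]
      have h2 := hTa' g.right h.left
      show vp k (_ + T h.right *ᵥ (T g.right *ᵥ Multiplicative.toAdd
        (φE ((g.right : MulAut E) h.left)))) = _
      rw [h2]
    · intro g
      funext i
      have h1 : vp k (T g.right *ᵥ Multiplicative.toAdd (φE g.left)) i ^ p -
          vp k (T g.right *ᵥ Multiplicative.toAdd (φE g.left)) i = 0 := by
        simp only [vp]
        rw [← Polynomial.C_pow, fpp, sub_self]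
      show (H (Λ (Pi.single i 1))).comp (Polynomial.X + Polynomial.C (ι (s g.right))) =
        (mp k (T g.right) *ᵥ fun i => H (Λ (Pi.single i 1))) i +
        (vp k (T g.right *ᵥ Multiplicative.toAdd (φE g.left)) i ^ p -
          vp k (T g.right *ᵥ Multiplicative.toAdd (φE g.left)) i)
      rw [h1, add_zero, hHeq (s g.right) _ (Λ (fun j => T g.right i j)) ?_]
      · rw [← hHΛ (fun j => T g.right i j)]
        rfl
      · intro a b hab
        have h2 : b = (g.right : MulAut E) a := by
          apply Subtype.ext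
          rw [← hs g.right, hcj, hab]
        rw [h2, hΛ, hΛ]
        have h3 := congrFun (hTa' g.right a) i
        have h4 : (fun j => T g.right i j) ⬝ᵥ
            Multiplicative.toAdd (φE ((g.right : MulAut E) a)) =
            Multiplicative.toAdd (φE a) i := h3
        rw [h4, single_one_dotProduct]

end Pool.CND
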